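import Pool.Agent.H29.MN2

namespace Pool.Agent.Results.MP_f53640_co.NoUniform

open Pool.Agent.H29.MN Finset

def GF {n r : ℕ} (f : Fin n × Fin r → Fin n) : SimpleGraph (Fin n) where
  Adj u v := u ≠ v ∧ ∀ i, f (u, i) ≠ v ∧ f (v, i) ≠ u
  symm := ⟨fun _ _ h => ⟨h.1.symm, fun i => (h.2 i).symm⟩⟩
  loopless := ⟨fun _ h => h.1 rfl⟩

open Classical in
lemma many_good (q : ℕ) (hq : 1 ≤ q) : (100 * q) ^ (100 * q * 3600) ≤
    2 * (univ.filter (fun f : Fin (100 * q) × Fin 3600 → Fin (100 * q) =>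
      ¬ HasK (GF f) (51 * q))).card := by
  set n := 100 * q with hn
  have h1 := card_filter_add_card_filter_not (s := (univ : Finset (Fin n × Fin 3600 → Fin n)))
    (fun f => HasK (GF f) (51 * q))
  let P : Finset (Fin n) → Finset (Fin n × Fin 3600 → Fin n) := fun S =>
    Fintype.piFinset (fun c => if c.1 ∈ S then (S.erase c.1)ᶜ else univ)
  have h2 : univ.filter (fun f : Fin n × Fin 3600 → Fin n => HasK (GF f) (51 * q)) ⊆
      (powersetCard (2 * q) univ).biUnion P := by
    intro f hf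
    obtain ⟨S, s1, s2⟩ := clique_of_hasK (mem_filter.1 hf).2
    rw [Fintype.card_fin] at s2
    obtain ⟨S', t1, t2⟩ := exists_subset_card_eq (s := S) (n := 2 * q) (by omega)
    refine mem_biUnion.2 ⟨S', by simp [t2], Fintype.mem_piFinset.2 fun c => ?_⟩
    split_ifs with hc
    · rw [mem_compl, mem_erase]
      rintro ⟨e1, e2⟩
      exact ((s1 _ (t1 hc) _ (t1 e2) e1.symm).2 c.2).1 rfl
    · exact mem_univ _
  have h3 : ∀ S ∈ powersetCard (2 * q) (univ : Finset (Fin n)),
      (P S).card * 100 ^ (7200 * q) ≤ 99 ^ (7200 * q) * n ^ (n * 3600) := by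
    intro S hS
    have hc := (mem_powersetCard.1 hS).2
    have := card_pi (S ×ˢ (univ : Finset (Fin 3600)))
      (fun c : Fin n × Fin 3600 => if c.1 ∈ S then (S.erase c.1)ᶜ else univ) (99 * q) (by
        intro c hc'
        have := (mem_product.1 hc').1
        rw [if_pos this, card_compl, card_erase_of_mem this, Fintype.card_fin]
        omega)
    simp only [card_product, hc, card_univ, Fintype.card_fin, Fintype.card_prod] at this
    rw [show 2 * q * 3600 = 7200 * q by ring, mul_pow 99] at this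
    have e : n ^ (7200 * q) = 100 ^ (7200 * q) * q ^ (7200 * q) := by rw [hn, mul_pow]
    rw [e] at this
    apply Nat.le_of_mul_le_mul_right _ (pow_pos hq (7200 * q))
    calc _ = (P S).card * (100 ^ (7200 * q) * q ^ (7200 * q)) := by ring
      _ ≤ _ := this
      _ = _ := by ring
  have h4 : ((powersetCard (2 * q) univ).biUnion P).card * 100 ^ (7200 * q) ≤
      2 ^ n * (99 ^ (7200 * q) * n ^ (n * 3600)) := by
    refine (Nat.mul_le_mul_right _ card_biUnion_le).trans ?_
    rw [sum_mul]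
    refine (sum_le_card_nsmul _ _ _ h3).trans (Nat.mul_le_mul_right _ ?_)
    rw [card_powersetCard, card_univ, Fintype.card_fin]
    exact Nat.choose_le_two_pow _ _
  have h5 : 2 * 2 ^ n * 99 ^ (7200 * q) ≤ 100 ^ (7200 * q) := by
    have a : 2 ^ 101 * 99 ^ 7200 ≤ 100 ^ 7200 := by decide +kernel
    have b := Nat.pow_le_pow_left a q
    rw [mul_pow, ← pow_mul, ← pow_mul, ← pow_mul] at b
    refine le_trans (Nat.mul_le_mul_right _ ?_) b
    rw [← pow_succ']
    exact Nat.pow_le_pow_right (by omega) (by omega)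
  have h6 : 2 * ((powersetCard (2 * q) univ).biUnion P).card ≤ n ^ (n * 3600) := by
    apply Nat.le_of_mul_le_mul_right _ (pow_pos (by omega : 0 < 100) (7200 * q))
    calc _ = 2 * (((powersetCard (2 * q) univ).biUnion P).card * 100 ^ (7200 * q)) := by ring
      _ ≤ 2 * (2 ^ n * (99 ^ (7200 * q) * n ^ (n * 3600))) := by gcongr
      _ = n ^ (n * 3600) * (2 * 2 ^ n * 99 ^ (7200 * q)) := by ring
      _ ≤ _ := by gcongr
  have h7 := card_le_card h2
  simp only [card_univ, Fintype.card_fun, Fintype.card_fin, Fintype.card_prod] at h1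
  omega

open Classical in
lemma fiber {n r k : ℕ} (G : SimpleGraph (Fin n))
    (hG : 2 * k ≤ (univ.filter (fun p : Fin n × Fin n => p.1 ≠ p.2 ∧ ¬ G.Adj p.1 p.2)).card) :
    (univ.filter (fun f : Fin n × Fin r → Fin n => GF f ≤ G)).card * n ^ k ≤
      (2 * r) ^ k * n ^ (n * r) := by
  set F := univ.filter (fun p : Fin n × Fin n => p.1 < p.2 ∧ ¬ G.Adj p.1 p.2) with hF
  have h1 : k ≤ F.card := by
    have : univ.filter (fun p : Fin n × Fin n => p.1 ≠ p.2 ∧ ¬ G.Adj p.1 p.2) ⊆
        F ∪ F.image Prod.swap := by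
      rintro ⟨a, b⟩ hp
      simp only [mem_filter, mem_univ, true_and] at hp
      rcases lt_or_gt_of_ne hp.1 with h | h
      · exact mem_union_left _ (by simp [hF, h, hp.2])
      · exact mem_union_right _ (mem_image.2 ⟨(b, a), by simp [hF, h, G.adj_comm, hp.2], rfl⟩)
    have := card_le_card this
    have := card_union_le F (F.image Prod.swap)
    have := card_image_le (s := F) (f := Prod.swap)
    omega
  obtain ⟨E, e1, e2⟩ := exists_subset_card_eq h1
  let co : (E → Fin r × Bool) → E → Fin n × Fin r := fun x e =>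
    (if (x e).2 then e.1.1 else e.1.2, (x e).1)
  let val : (E → Fin r × Bool) → E → Fin n := fun x e => if (x e).2 then e.1.2 else e.1.1
  have h2 : univ.filter (fun f : Fin n × Fin r → Fin n => GF f ≤ G) ⊆
      univ.biUnion (fun x => univ.filter (fun f => ∀ e, f (co x e) = val x e)) := by
    intro f hf
    have : ∀ e : E, ∃ y : Fin r × Bool, f (if y.2 then e.1.1 else e.1.2, y.1) =
        if y.2 then e.1.2 else e.1.1 := by
      intro e
      have he := e1 e.2
      simp only [hF, mem_filter, mem_univ, true_and] at he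
      by_contra hn
      push Not at hn
      exact he.2 ((mem_filter.1 hf).2 ⟨he.1.ne, fun i => ⟨hn (i, true), hn (i, false)⟩⟩)
    choose x hx using this
    exact mem_biUnion.2 ⟨x, mem_univ _, mem_filter.2 ⟨mem_univ _, hx⟩⟩
  refine (Nat.mul_le_mul_right _ ((card_le_card h2).trans card_biUnion_le)).trans ?_
  rw [sum_mul]
  refine (sum_le_card_nsmul _ _ (n ^ (n * r)) fun x _ => ?_).trans ?_
  · have := pin (co x) (val x) (by
      rintro ⟨⟨a, b⟩, ha⟩ ⟨⟨c, d⟩, hc⟩ h3 h4
      have l1 := (mem_filter.1 (e1 ha)).2.1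
      have l2 := (mem_filter.1 (e1 hc)).2.1
      have h3 := congrArg Prod.fst h3
      simp only [co, val] at h3 h4 l1 l2
      simp only [Subtype.mk.injEq, Prod.mk.injEq]
      split_ifs at h3 h4 <;> omega)
    simpa [e2] using this
  · simp [e2, mul_comm]

open Classical in
lemma few {W : Type} [Fintype W] (U : SimpleGraph W) {t n r : ℕ} (hU : ¬ HasK U t)
    (hn : (r + 1) * (r + 1) ≤ n) : ∃ Φ : Finset (Fin n → W),
    Φ.card ≤ Fintype.card W ^ ((r + 1) * (r + 1)) * ((r + 1) * (r + 1) * (6 * (t * t + t) + 1)) ^ n ∧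
    ∀ (f : Fin n × Fin r → Fin n) (φ : Fin n → W), Function.Injective φ → GF f ≤ U.comap φ → φ ∈ Φ := by
  obtain ⟨ρ, r1, r2⟩ := order U hU univ
  set K := (r + 1) * (r + 1) with hK
  let T : Finset W → Finset W := fun X =>
    X.biUnion (fun v => insert v (univ.filter (fun w => U.Adj v w ∧ ρ v < ρ w)))
  refine ⟨(powersetCard K univ).biUnion (fun X => Fintype.piFinset (fun _ => T X)), ?_, ?_⟩
  · refine card_biUnion_le.trans ((sum_le_card_nsmul _ _ ((K * (6 * (t * t + t) + 1)) ^ n)
      fun X hX => ?_).trans ?_)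
    · rw [Fintype.card_piFinset_const]
      apply Nat.pow_le_pow_left
      rw [← (mem_powersetCard.1 hX).2]
      exact card_biUnion_le.trans (sum_le_card_nsmul _ _ _ fun v _ =>
        (card_insert_le _ _).trans (Nat.succ_le_succ (r2 v (mem_univ _))))
    · rw [smul_eq_mul, card_powersetCard, card_univ]
      exact Nat.mul_le_mul_right _ (Nat.choose_le_pow _ _)
  · intro f φ hφ hle
    obtain ⟨B, b1, b2⟩ := first (fun v => ρ (φ v))
      (fun a b e => hφ (r1 (by simp) (by simp) e)) (r + 1) (by rw [Fintype.card_fin]; nlinarith)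
    let X0 : Finset (Fin n) := B ∪ (B ×ˢ (univ : Finset (Fin r))).image f
    have x0 : (X0.image φ).card ≤ K := by
      refine card_image_le.trans ((card_union_le _ _).trans ?_)
      have := card_image_le (s := B ×ˢ (univ : Finset (Fin r))) (f := f)
      simp only [card_product, b1, card_univ, Fintype.card_fin] at this
      rw [b1, hK]; nlinarith
    obtain ⟨X, x1, -, x3⟩ := exists_subsuperset_card_eq (subset_univ (X0.image φ)) x0 (by
      have := Fintype.card_le_of_injective φ hφ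
      rw [Fintype.card_fin] at this
      rw [card_univ]; omega)
    refine mem_biUnion.2 ⟨X, by simp [x3], Fintype.mem_piFinset.2 fun w => ?_⟩
    by_cases hw : w ∈ X0
    · exact mem_biUnion.2 ⟨φ w, x1 (mem_image_of_mem _ hw), mem_insert_self _ _⟩
    · simp only [X0, mem_union, not_or] at hw
      obtain ⟨b, hb⟩ : (B \ univ.image (fun i => f (w, i))).Nonempty := by
        apply card_pos.1
        have := le_card_sdiff (univ.image (fun i => f (w, i))) B
        have := card_image_le (s := (univ : Finset (Fin r))) (f := fun i => f (w, i))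
        simp only [card_univ, Fintype.card_fin] at this
        omega
      rw [mem_sdiff] at hb
      refine mem_biUnion.2 ⟨φ b, x1 (mem_image_of_mem _ (mem_union_left _ hb.1)),
        mem_insert_of_mem (mem_filter.2 ⟨mem_univ _, ?_, b2 b hb.1 w hw.1⟩)⟩
      refine hle (show (GF f).Adj b w from ⟨fun e => hw.1 (e ▸ hb.1), fun i => ⟨fun e => ?_, fun e => ?_⟩⟩)
      · exact hw.2 (mem_image.2 ⟨(b, i), by simp [hb.1], e⟩)
      · exact hb.2 (mem_image.2 ⟨i, mem_univ _, e⟩)

lemma main (K : ℕ) (hK : (3600 + 1) * (3600 + 1) = K) (q : ℕ) (hq : 360000 ≤ q) {m : ℕ} (U : SimpleGraph (Fin m)) (hU : ¬ HasK U (51 * q))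
    (h : ∀ G : SimpleGraph (Fin (100 * q)), ¬ HasK G (51 * q) → G.IsContained U) :
    (100 * q) ^ (100 * q) ≤ 2 * m ^ K * (6 * K * 7200 ^ 3) ^ (100 * q) := by
  classical
  have h1 := many_good q (by omega)
  set n := 100 * q with hn
  obtain ⟨Φ, p1, p2⟩ := few (n := n) (r := 3600) U hU (by omega)
  set Ψ := Φ.filter Function.Injective with hΨ
  have h2 : univ.filter (fun f : Fin n × Fin 3600 → Fin n => ¬ HasK (GF f) (51 * q)) ⊆
      Ψ.biUnion (fun φ => univ.filter (fun f => GF f ≤ U.comap φ)) := by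
    intro f hf
    obtain ⟨c⟩ := h _ (mem_filter.1 hf).2
    have hle : GF f ≤ U.comap c := fun a b hab => c.toHom.map_adj hab
    exact mem_biUnion.2 ⟨c, mem_filter.2 ⟨p2 f c c.injective hle, c.injective⟩,
      mem_filter.2 ⟨mem_univ _, hle⟩⟩
  have h3 : (univ.filter (fun f : Fin n × Fin 3600 → Fin n => ¬ HasK (GF f) (51 * q))).card
      * n ^ (3 * n) ≤ Φ.card * ((2 * 3600) ^ (3 * n) * n ^ (n * 3600)) := by
    refine (Nat.mul_le_mul_right _ ((card_le_card h2).trans card_biUnion_le)).trans ?_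
    rw [sum_mul]
    refine (sum_le_card_nsmul _ _ _ fun φ hφ => ?_).trans
      (Nat.mul_le_mul_right _ (card_filter_le _ _))
    apply fiber
    by_contra hlt
    have e6 : 2 * (3 * n) = 600 * q := by omega
    rw [e6, not_le] at hlt
    exact hU (HasK.map (mem_filter.1 hφ).2 (dense_hasK (U.comap φ) q hq (by simp [hn])
      (by have h9 : _ ≤ 600 * q := Nat.le_of_lt hlt; convert h9)))
  have n0 : 0 < n := by omega
  rw [Fintype.card_fin, hK] at p1
  have h4 : K * (6 * (51 * q * (51 * q) + 51 * q) + 1) ≤ 6 * K * n ^ 2 := by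
    rw [hn, mul_comm 6 K, mul_assoc K]
    apply Nat.mul_le_mul_left
    nlinarith
  have h5 : Φ.card ≤ m ^ K * (6 * K * n ^ 2) ^ n :=
    p1.trans (Nat.mul_le_mul_left _ (Nat.pow_le_pow_left h4 n))
  apply Nat.le_of_mul_le_mul_right _ (Nat.mul_pos (pow_pos n0 (n * 3600)) (pow_pos n0 (2 * n)))
  calc n ^ n * (n ^ (n * 3600) * n ^ (2 * n)) = n ^ (n * 3600) * n ^ (3 * n) := by ring
    _ ≤ 2 * (Φ.card * ((2 * 3600) ^ (3 * n) * n ^ (n * 3600))) := by
        refine (Nat.mul_le_mul_right _ h1).trans ?_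
        rw [mul_assoc]; exact Nat.mul_le_mul_left _ h3
    _ ≤ 2 * (m ^ K * (6 * K * n ^ 2) ^ n * ((2 * 3600) ^ (3 * n) * n ^ (n * 3600))) := by gcongr
    _ = _ := by
        rw [mul_pow (6 * K), mul_pow (6 * K), ← pow_mul, ← pow_mul, show 2 * 3600 = 7200 by norm_num]
        generalize 7200 ^ (3 * n) = a
        generalize n ^ (n * 3600) = b
        generalize n ^ (2 * n) = c
        generalize (6 * K) ^ n = d
        ring

theorem result : ∀ c : ℝ, ∃ t n : ℕ, 1 ≤ n ∧ ∀ (m : ℕ) (U : SimpleGraph (Fin m)), ¬ HasK U t →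
    (∀ G : SimpleGraph (Fin n), ¬ HasK G t → G.IsContained U) → (2 : ℝ) ^ (c * n) < m := by
  intro c
  obtain ⟨C, hC⟩ := exists_nat_ge c
  obtain ⟨K, hK⟩ : ∃ K, (3600 + 1) * (3600 + 1) = K := ⟨_, rfl⟩
  obtain ⟨A, hA⟩ : ∃ A, A = 6 * K * 7200 ^ 3 := ⟨_, rfl⟩
  obtain ⟨q, q1, q2⟩ : ∃ q, 360000 ≤ q ∧ 2 * 2 ^ (C * K) * A < q :=
    ⟨_, le_max_left _ _, lt_of_lt_of_le (Nat.lt_succ_self _) (le_max_right _ _)⟩
  refine ⟨51 * q, 100 * q, by omega, fun m U hU h => ?_⟩
  have h1 := main K hK q q1 U hU h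
  rw [← hA] at h1
  by_contra hlt
  push Not at hlt
  have h2 : m ≤ 2 ^ (C * (100 * q)) := by
    have : (2 : ℝ) ^ (c * (100 * q : ℕ)) ≤ (2 : ℝ) ^ ((C * (100 * q) : ℕ) : ℝ) := by
      apply Real.rpow_le_rpow_of_exponent_le (by norm_num)
      rw [Nat.cast_mul C]
      exact mul_le_mul_of_nonneg_right hC (by positivity)
    rw [Real.rpow_natCast] at this
    exact_mod_cast hlt.trans this
  have n0 : 100 * q ≠ 0 := by omega
  have h3 : (100 * q) ^ (100 * q) ≤ (2 * 2 ^ (C * K) * A) ^ (100 * q) := by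
    refine h1.trans ?_
    rw [mul_pow, mul_pow]
    apply Nat.mul_le_mul_right
    apply Nat.mul_le_mul (Nat.le_self_pow n0 2)
    refine (Nat.pow_le_pow_left h2 K).trans (le_of_eq ?_)
    rw [← pow_mul, ← pow_mul]; congr 1; ring
  have := (Nat.pow_le_pow_iff_left n0).1 h3
  omega

end Pool.Agent.Results.MP_f53640_co.NoUniform
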